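import Pool.Agent.X261.MF.Main

/-!
# The twists of superelliptic curves over `k(t)` by products of primes which are inert in the branch curve

Let `p` be a prime number, `q` a power of it and `k` a field which contains the `q`-th roots of unity. Let
`f(x, t)` be a branch curve (`IsBranchCurve`): smooth, absolutely irreducible, monic in `x` of degree `n`
prime to `p`, and its coordinate ring has no units besides the constants and no ideal classes of order `p`.
A prime `P` of `k[t]` is inert if `f` is irreducible modulo `P`: there is one prime of the branch curve above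
`P`. For ALL nonzero polynomials `D` all of whose prime factors are inert, and with arbitrary exponents, we
prove for the curve `w ^ q = D ^ n f(x / D, t)` over `K = k(t)`, the twist by `D ^ n` of `w ^ q = f(x, t)`,
with the Jacobian `J`:

* the Tate conjecture at `p` for the surface of this equation, over `k`;
* `Ш(J / K)[p ^ ∞] = 0`;
* `J(K)` is divisible by all powers of `p`; so the rank is zero and the torsion is prime to `p` if `J(K)` is
  finitely generated.

The genus, the number of the bad fibres and the degree of the `L`-function are not bounded, and `k` is any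
field (of characteristic different from `p`), for example a finite field.

Examples of branch curves are the graphs `f₀(x) = t` (the prime `P` is inert if `P(f₀(x))` is irreducible) and
the elliptic curves `t ^ 2 = g(x)` over `k` without rational points of order `p` (the prime factors of
`t ^ 2 - e` are inert if `g - e` is irreducible over `k`).
-/

set_option autoImplicit false

open Polynomial IsDedekindDomain
open scoped Classical

namespace Pool.Agent.Results.MP_677d84_ag.InertTwists

open Pool.Agent.TH115.GD (IsTower)
open Pool.Agent.Y160.SL (Jac TateAt ShaTriv)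

section defs

variable {k : Type} [Field k]

/-- The polynomial `f` in `x` over `k[t]` defines a smooth, absolutely irreducible affine plane curve
whose coordinate ring `R = k[t, x] / (f)` has no units besides the constants and no ideal classes of
order `p` (if the `p`-th power of an ideal is principal, the ideal is principal); `f` is monic in `x`, of
degree prime to `p`, and its derivative with respect to `x` is not zero. -/
structure IsBranchCurve (p : ℕ) (f : k[X][X]) : Prop where
  monic : f.Monic
  coprime : p.Coprime f.natDegree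
  irreducible : ∀ (k' : Type) [Field k'] [Algebra k k'],
    Irreducible (f.map (mapRingHom (algebraMap k k')))
  derivative_ne_zero : derivative f ≠ 0
  smooth : Ideal.span {f, derivative f, f.sum fun i a => C (derivative a) * X ^ i} = ⊤
  dedekind : IsDedekindDomain (AdjoinRoot f)
  ideals : ∀ I : Ideal (AdjoinRoot f), (I ^ p).IsPrincipal → I.IsPrincipal
  units : ∀ u : (AdjoinRoot f)ˣ, ∃ c : k, (u : AdjoinRoot f) = algebraMap k (AdjoinRoot f) c

/-- All the prime factors `P` of `D` in `k[t]` are inert in the branch curve: `f` modulo `P`, a polynomial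
in `x` over the field `k[t] / (P)`, is irreducible. -/
def IsInertProduct (f : k[X][X]) (D : k[X]) : Prop :=
  ∀ P : k[X], Irreducible P → P ∣ D → Irreducible (f.map (AdjoinRoot.mk P))

/-- The polynomial `D ^ n f(x / D, t)` in `x` over `K = k(t)`, where `n` is the degree of `f` in `x`. The
surface `w ^ q = D ^ n f(x / D, t)` is the twist of `w ^ q = f(x, t)` by `D(t) ^ n`. -/
noncomputable def twist (K : Type) [Field K] [Algebra k[X] K] (f : k[X][X]) (D : k[X]) : K[X] :=
  (f.scaleRoots D).map (algebraMap k[X] K)

/-- The conclusions: the Tate conjecture at `p` for the surface `w ^ q = G(x)` over the projective line,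
`Ш(J / K)[p ^ ∞] = 0` for the Jacobian `J` of its generic fibre over `K`, and all elements of `J(K)` are
divisible by all powers of `p` in `J(K)`. -/
def Holds (p q : ℕ) (k k' F : Type) {K : Type} [Field k] [Field k'] [Field K] [Field F]
    [Algebra K F] [Algebra k[X] K] [IsFractionRing k[X] K] [Algebra k'[X] F]
    [IsFractionRing k'[X] F] (G : K[X]) : Prop :=
  TateAt (F := F) p q k' G ∧ ShaTriv p q k[X] G ∧
    ∀ (n : ℕ) (x : Jac q G K), ∃ y : Jac q G K, x = p ^ n • y

/-- The polynomial `x ^ 3 + a x ^ 2 + b x + c`. -/
noncomputable def cubic (a b c : k) : k[X] := X ^ 3 + C a * X ^ 2 + C b * X + C c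

end defs

theorem holds_of {k k' K F : Type} [Field k] [Field k'] [Field K] [Field F] [Algebra K F]
    [Algebra k[X] K] [IsFractionRing k[X] K] [Algebra k'[X] F] [IsFractionRing k'[X] F]
    {p q : ℕ} {G : K[X]} (h : Pool.Agent.Y160.SL.Concl p q 0 k k' F G) :
    Holds p q k k' F G := by
  obtain ⟨D, hD1, hD2⟩ := h.basis
  refine ⟨h.tate, h.sha, fun n x => ?_⟩
  obtain ⟨y, hy⟩ := hD2 n x
  refine ⟨y, ?_⟩
  have e1 : Set.range D = ∅ := by
    ext z
    simp only [Set.mem_range, Set.mem_empty_iff_false, iff_false]
    rintro ⟨i, -⟩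
    exact i.1.elim0
  rw [e1, AddSubgroup.closure_empty, AddSubgroup.mem_bot, sub_eq_zero] at hy
  exact hy

theorem ring_of {k : Type} [Field k] {p : ℕ} (hp : p.Prime) {f : k[X][X]}
    (h : IsBranchCurve p f) : ∃ _ : IsDedekindDomain (AdjoinRoot f),
      Pool.Agent.Y160.T7.PropT p k (AdjoinRoot f) :=
  ⟨h.dedekind, by
    let := h.dedekind
    exact Pool.Agent.X261.BC.propT_of_class hp.pos
      (Pool.Agent.X261.BC.class_of_ideal h.ideals) h.units⟩

theorem cubic_branch {k : Type} [Field k] {p : ℕ} (hp : p.Prime) (h3 : p ≠ 3) {a b c : k}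
    (h2 : (2 : k) ≠ 0) (hs : (cubic a b c).Separable)
    (hP : ∀ P : (⟨0, a, 0, b, c⟩ : WeierstrassCurve k).toAffine.Point, p • P = 0 → P = 0) :
    IsBranchCurve p ((cubic a b c).map C - C (X ^ 2)) := by
  have hd : 0 < (Pool.Agent.X261.BC.cub a b c).natDegree := by
    rw [Pool.Agent.X261.BC.cub_deg]
    norm_num
  have hm := Pool.Agent.X261.BC.cub_monic a b c
  obtain ⟨r1, r2, r3⟩ := Pool.Agent.X261.BC.ell_ring h2 hs hp.pos hP
  refine ⟨Pool.Agent.X261.BC.monic_sup hm hd 2, ?_, ?_, ?_, ?_, r1, r2, r3⟩
  · show p.Coprime (Pool.Agent.X261.BC.sup (Pool.Agent.X261.BC.cub a b c) 2).natDegree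
    rw [Pool.Agent.X261.BC.natDegree_sup, Pool.Agent.X261.BC.cub_deg]
    exact (Nat.coprime_primes hp Nat.prime_three).2 h3
  · intro k' _ _
    exact Pool.Agent.X261.BC.irr_closure hs hd one_lt_two k'
  · show derivative (Pool.Agent.X261.BC.sup (Pool.Agent.X261.BC.cub a b c) 2) ≠ 0
    rw [Pool.Agent.X261.BC.derivative_sup, Polynomial.map_ne_zero_iff C_injective]
    intro h0
    rw [Polynomial.Separable] at hs
    have h1 : IsUnit (Pool.Agent.X261.BC.cub a b c) := by
      have h4 : IsCoprime (Pool.Agent.X261.BC.cub a b c) 0 := by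
        rw [← h0]
        exact hs
      exact isCoprime_zero_right.1 h4
    have h5 := natDegree_eq_zero_of_isUnit h1
    omega
  · exact Pool.Agent.X261.BC.smooth_sup hs (by exact_mod_cast h2)

/-- a cubic without roots in `k` has no roots in an extension of degree at most two -/
theorem cubic_inert {k : Type} [Field k] {a b c e : k} (he : Irreducible (cubic a b c - C e))
    {P : k[X]} (hP : Irreducible P) (hd : P ∣ X ^ 2 - C e) :
    Irreducible (((cubic a b c).map C - C (X ^ 2) : k[X][X]).map (AdjoinRoot.mk P)) := by
  haveI : Fact (Irreducible P) := ⟨hP⟩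
  have h1 : (AdjoinRoot.mk P) (X ^ 2) = algebraMap k (AdjoinRoot P) e := by
    have h2 : (AdjoinRoot.mk P) (X ^ 2 - C e) = 0 := AdjoinRoot.mk_eq_zero.2 hd
    rw [map_sub, sub_eq_zero] at h2
    rw [h2, AdjoinRoot.mk_C, AdjoinRoot.algebraMap_eq]
  have h3 : ((cubic a b c).map C - C (X ^ 2) : k[X][X]).map (AdjoinRoot.mk P) =
      (cubic a b c - C e).map (algebraMap k (AdjoinRoot P)) := by
    rw [Polynomial.map_sub, Polynomial.map_map, map_C, h1, Polynomial.map_sub, map_C]
    congr 1
  rw [h3]
  have hcub : (cubic a b c) = Pool.Agent.X261.BC.cub a b c := rfl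
  have hdeg : (cubic a b c - C e).natDegree = 3 := by
    rw [natDegree_sub_C, hcub, Pool.Agent.X261.BC.cub_deg]
  have hmon : (cubic a b c - C e).Monic := by
    apply (Pool.Agent.X261.BC.cub_monic a b c).sub_of_left
    rw [degree_eq_natDegree (Pool.Agent.X261.BC.cub_monic a b c).ne_zero,
      Pool.Agent.X261.BC.cub_deg]
    exact lt_of_le_of_lt degree_C_le (by norm_num)
  have hP0 : P ≠ 0 := hP.ne_zero
  have hPd : P.natDegree ≤ 2 := by
    have hne : (X ^ 2 - C e : k[X]) ≠ 0 := (monic_X_pow_sub_C e two_ne_zero).ne_zero
    have := natDegree_le_of_dvd hd hne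
    rwa [natDegree_X_pow_sub_C] at this
  have hPpos : 0 < P.natDegree := hP.natDegree_pos
  rw [Polynomial.irreducible_iff_roots_eq_zero_of_degree_le_three (by
    rw [natDegree_map, hdeg]; norm_num) (by rw [natDegree_map, hdeg])]
  rw [Multiset.eq_zero_iff_forall_notMem]
  intro x hx
  have hx1 : aeval x (cubic a b c - C e) = 0 := by
    have := (mem_roots'.1 hx).2
    rw [IsRoot.def, eval_map_algebraMap] at this
    exact this
  haveI : FiniteDimensional k (AdjoinRoot P) := (AdjoinRoot.powerBasis hP0).finite
  have hmin : minpoly k x = cubic a b c - C e :=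
    (minpoly.eq_of_irreducible_of_monic he hx1 hmon).symm
  have hint : IsIntegral k x := Algebra.IsIntegral.isIntegral x
  have hdvd := minpoly.degree_dvd hint
  rw [hmin, hdeg, (AdjoinRoot.powerBasis hP0).finrank, AdjoinRoot.powerBasis_dim] at hdvd
  have := Nat.le_of_dvd hPpos hdvd
  omega

/-- **The twists by products of inert primes.** Let `p` be a prime number, `q = p ^ (s + 1)`, `k` a field
which contains the `q`-th roots of unity, `K = k(t)`, `kb` a separable closure of `k` and `F = kb(t)`.

1. Let `f` be a branch curve of degree `n` in `x` as in `IsBranchCurve` and `D` in `k[t]`, not zero, all of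
whose prime factors are inert in the branch curve. Then for the curve `w ^ q = D ^ n f(x / D, t)` over `K`
with the Jacobian `J` we have `Ш(J / K)[p ^ ∞] = 0`, all elements of `J(K)` are divisible by all powers of
`p` in `J(K)`, and the Tate conjecture at `p` holds over `k` for the surface of this equation.

2. The same for `f = f₀(x) - t`, `f₀` monic of degree `n` prime to `p` and with nonzero derivative, if
`P(f₀(x))` is irreducible for all prime factors `P` of `D`.

3. Let the characteristic of `k` be not two, `p ≠ 3`, and let `Γ : y ^ 2 = g(x)` be an elliptic curve over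
`k`, `g = x ^ 3 + a x ^ 2 + b x + c`, without a rational point of order `p`. Then `f = g(x) - t ^ 2` is a
branch curve, and `D` is a product of inert primes if each prime factor of `D` divides `t ^ 2 - e` for some
`e` in `k` such that `g - e` is irreducible over `k`. -/
theorem result (p s : ℕ) (hp : p.Prime) (k : Type) [Field k] (ζ : k)
    (hζ : IsPrimitiveRoot ζ (p ^ (s + 1))) :
    (∀ f : k[X][X], IsBranchCurve p f → ∀ D : k[X], D ≠ 0 → IsInertProduct f D →
      ∀ (kb K F : Type) [Field kb] [Algebra k kb] [Field K] [Algebra k[X] K]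
        [IsFractionRing k[X] K] [Field F] [Algebra kb[X] F] [IsFractionRing kb[X] F] [Algebra K F],
        IsTower k kb K F → Holds p (p ^ (s + 1)) k kb F (twist K f D)) ∧
    (∀ f₀ : k[X], f₀.Monic → p.Coprime f₀.natDegree → derivative f₀ ≠ 0 → ∀ D : k[X], D ≠ 0 →
      (∀ P : k[X], Irreducible P → P ∣ D → Irreducible (P.comp f₀)) →
      ∀ (kb K F : Type) [Field kb] [Algebra k kb] [Field K] [Algebra k[X] K]
        [IsFractionRing k[X] K] [Field F] [Algebra kb[X] F] [IsFractionRing kb[X] F] [Algebra K F],
        IsTower k kb K F → Holds p (p ^ (s + 1)) k kb F (twist K (f₀.map C - C X) D)) ∧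
    (∀ a b c : k, (2 : k) ≠ 0 → p ≠ 3 → (cubic a b c).Separable →
      (∀ P : (⟨0, a, 0, b, c⟩ : WeierstrassCurve k).toAffine.Point, p • P = 0 → P = 0) →
      IsBranchCurve p ((cubic a b c).map C - C (X ^ 2)) ∧
      ∀ D : k[X], (∀ P : k[X], Irreducible P → P ∣ D → ∃ e : k, Irreducible (cubic a b c - C e) ∧
        P ∣ X ^ 2 - C e) → IsInertProduct ((cubic a b c).map C - C (X ^ 2)) D) := by
  refine ⟨?_, ?_, ?_⟩
  · intro f h D hD hin kb K F _ _ _ _ _ _ _ _ _ hT
    exact holds_of (Pool.Agent.X261.BC.mainI hT hp hζ h.monic h.coprime (h.irreducible kb)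
      h.derivative_ne_zero h.smooth (ring_of hp h) hD hin)
  · intro f₀ hm hc hd D hD hin kb K F _ _ _ _ _ _ _ _ _ hT
    exact holds_of (Pool.Agent.X261.TS.lineS hT hp hζ hm hc hd hD hin)
  · intro a b c h2 h3 hs hP
    refine ⟨cubic_branch hp h3 h2 hs hP, fun D hD P hPi hPD => ?_⟩
    obtain ⟨e, he, hPe⟩ := hD P hPi hPD
    exact cubic_inert he hPi hPe

end Pool.Agent.Results.MP_677d84_ag.InertTwists
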