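import Pool.Agent.N882.UE.FadSurf

/-!
# The Tate conjecture for function fields: one rational function field

Let `F` be a finite field (here: any perfect field), `E = ℚ_ℓ`, and for finitely generated fields `L`
over `F` (the function fields of the integral varieties over `F`) let `H L i j` be the cohomology of the
generic point over the algebraic closure of `F`, `fr` the Frobenius of `F` on it, `M L i j` the higher
Chow group `CH^j(L ⊗ F̄, 2j - i)` with coefficients `E` and `c` the cycle class map. `Onto L i j` is the
statement Q1 for `L` in the bidegree `(i, j)`: all classes fixed by the Frobenius are in the image of `c`.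
The inputs (`IsCyc`) are the Faddeev sequences of `M` and `H` for the affine line over a field and the
invariance under isomorphisms.

1. For all `n`, `i`, `j` the following are equivalent: Q1 in the bidegree `(i, j)` for all `L` of
transcendence degree at most `n`; for all `L` of transcendence degree `n`; Q1 in the bidegree
`(i + 1, j + 1)` for the single field `F(x_1, …, x_{n+1})` (if it is true for `F`, where it is trivial).
2. The Tate conjecture for divisors is true for all smooth projective surfaces over `F` iff
`H^3(F̄(x, y, z), ℚ_ℓ(2))` has no nonzero element fixed by the Frobenius.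
-/

set_option autoImplicit false

namespace Pool.Agent.Results.MP_677d84_ag.OneRationalField

open Pool.Agent.N882.UE

theorem result {F E : Type} [Field F] [PerfectField F] [Field E] {T : Cyc F E} (hT : IsCyc T) :
    (∀ (n : ℕ) (i j : ℤ), T.Onto F (i + 1) (j + 1) →
      [T.UpTo n i j, T.InDeg n i j,
        T.Onto (FractionRing (MvPolynomial (Fin (n + 1)) F)) (i + 1) (j + 1)].TFAE) ∧
    (T.Van → (∀ h : T.H F 3 2, h = 0) → T.HasSurfaces →
      (T.Divisors ↔ T.NoFixed (FractionRing (MvPolynomial (Fin 3) F)) 3 2)) :=
  ⟨fun n i j h0 => onto_tfae hT n i j h0, fun hM hF hS => surfaces_iff hT hM hF hS⟩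

end Pool.Agent.Results.MP_677d84_ag.OneRationalField
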