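import Mathlib
import Pool.Agent.N995.Ff1

/-!
# The Tate conjecture for function fields of varieties dominated by ordinary and supersingular abelian
# varieties

Let `k` be a finite field of characteristic `p` and `A` an ordinary abelian variety over `k`, of any
dimension, and let `X` be its canonical lift, a complex abelian variety (with complex multiplication, because
`k` is finite). Suppose that (`SmallTypes`) the simple factors of `X` are divided into independent blocks,
each of which

* consists of abelian varieties of dimension at most three (such that types whose fields have the same Galois
  closure are the same, unless the fields are Galois over `ℚ`), or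
* of factors of one abelian variety of dimension at most five with complex multiplication, or
* of one simple factor of dimension at most seven, with any multiplicity, or
* is nondegenerate, of any dimension;

or that (`FactorsOfSmall`) all simple factors of `X` are factors of one abelian variety of dimension at
most five.

Let `Y` be a geometrically integral variety over `k` (possibly singular or open) and `V` a smooth projective
variety with a dominant, generically finite rational map to `Y`, for instance a resolution of the
singularities of a compactification, or an alteration. Let `j ≥ 1`, and suppose that `H^{2 j}(V ⊗ k̄)` is the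
sum of the images of cohomology groups of `A × S` under algebraic correspondences, where `S` is a
supersingular abelian variety. This is the case for all `j` if `V` is dominated by a product of powers of
`A`, of supersingular abelian varieties, and of curves whose Jacobians have such factors.

Then the cohomology group `H^{2 j}(F_0 (Y ⊗ k̄), ℚ_ℓ(j))` of the generic point of `Y ⊗ k̄` has no nonzero
invariants of the Galois group. So the Tate conjecture for the function field of `Y` is true in the bidegrees
`(i, j) = (2 j, j)`. In particular, by `FactorsOfSmall`, it is true in all these bidegrees for all varieties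
dominated by a product of a supersingular abelian variety and of abelian varieties whose simple factors over
`k̄` are among those of one ordinary abelian variety of dimension at most five; their number and the
dimension are unbounded.
-/

namespace Pool.Agent.Results.MP_677d84_ag.OrdinaryAbelianVarieties

open Module Pool.Agent.Y90 Pool.Agent.N995.OD Pool.Agent.N995.FF TensorProduct

/-- **The cohomology of the generic point has no invariants.** The ordinary abelian variety over `k` is
given by its canonical lift `X` and the Galois representation `ρ`; `WV` is the cohomology group of the smooth
projective variety `V`, `F` that of the generic point of `Y` and `t` the map between them. -/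
theorem result (p : ℕ) [hp : Fact p.Prime] (n : ℕ) (hn : 0 < n) (𝔙 : ValuationSubring ℂ)
    (h𝔙 : 𝔙.valuation (p : ℂ) < 1) (X : AV) (hX : SmallTypes X ∨ FactorsOfSmall X)
    (E : X.H → X.H → ℚ) (hE : Pool.Agent.Y90.St.IsPolarization X.per E)
    (ℓ : ℕ) [Fact ℓ.Prime] [Algebra ℚ_[ℓ] ℂ] [Algebra.IsAlgebraic ℚ_[ℓ] ℂ]
    {Γ : Type} [Group Γ] (ρ : Representation ℚ_[ℓ] Γ (ℚ_[ℓ] ⊗[ℚ] X.H)) (χ : Γ →* ℚ_[ℓ])
    {P : Type} [Nonempty P] (deg : P → ℕ) (F₀ : P → Γ) (hdeg : ∀ y, 0 < deg y)
    (hρ : IsOrdinary X.per E 𝔙 (p ^ n) ρ χ deg F₀)
    {WV F : Type} [AddCommGroup WV] [Module ℚ_[ℓ] WV] [Module ℚ WV] [AddCommGroup F]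
    [Module ℚ_[ℓ] F] (RV : Representation ℚ_[ℓ] Γ WV) (Z : Submodule ℚ WV)
    (R : Representation ℚ_[ℓ] Γ F) (t : WV →ₗ[ℚ_[ℓ]] F) (hV : IsGenericPoint RV Z R t)
    (gV : IsGeneratedBy X ρ χ RV Z) (w : F) (hw : ∀ g, R g w = w) : w = 0 :=
  invariants_eq_zero hp.out hn h𝔙 X hX hE hdeg hρ hV gV w hw

end Pool.Agent.Results.MP_677d84_ag.OrdinaryAbelianVarieties
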