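import Pool.Agent.N867.AS.R14

/-!
# Common eigenvalues of Frobenius on two Artin–Schreier surfaces `y^p - y = f_i(x, t)`
-/

set_option autoImplicit false

namespace Pool.Agent.Results.MP_677d84_ag.ProductsOfTwoSurfaces

open Polynomial

/-- All monomials `x^m t^n` of `f ∈ k[t][x]` (outer variable `x`, inner variable `t`) satisfy
`b m + a n ≤ g a b`, and those with equality make up `∑_{r ≤ g} Φ_r x^{a r} t^{b (g - r)}`, where
`Φ_r` is the coefficient of `X^r` in `Φ`. -/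
structure Leads {k : Type} [Field k] (a b g : ℕ) (Φ : k[X]) (f : k[X][X]) : Prop where
  wt : ∀ m n, (f.coeff m).coeff n ≠ 0 → b * m + a * n ≤ g * (a * b)
  top : ∀ r ≤ g, (f.coeff (a * r)).coeff (b * (g - r)) = Φ.coeff r

/-- The pairs `u = (u_1, u_2)` of positive integers with `b u_1 + a u_2 = w`. -/
abbrev Lattice (a b w : ℕ) : Type :=
  {u : Fin (w + 1) × Fin (w + 1) //
    0 < (u.1 : ℕ) ∧ 0 < (u.2 : ℕ) ∧ b * (u.1 : ℕ) + a * (u.2 : ℕ) = w}

/-- The matrix with entries the coefficients of `X^{(p v_1 - u_1)/a}` in `Φ^n`, for `u` and `v` in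
`Lattice a b w`. -/
noncomputable def hasseWitt {k : Type} [Field k] (p a b w n : ℕ) (Φ : k[X]) :
    Matrix (Lattice a b w) (Lattice a b w) k :=
  Matrix.of fun u v => (Φ ^ n).coeff ((p * (v.1.1 : ℕ) - (u.1.1 : ℕ)) / a)

/-- For every `w` with `0 < w < g a b` the matrix `hasseWitt` of `Φ^{(p-1)w/(gab)}` is
invertible. -/
def Ordinary {k : Type} [Field k] (p a b g : ℕ) (Φ : k[X]) : Prop :=
  ∀ w, 0 < w → w < g * (a * b) → (hasseWitt p a b w ((p - 1) * w / (g * (a * b))) Φ).det ≠ 0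

/-- `Φ = X^g - c` with `c ≠ 0`. -/
def Diagonal {k : Type} [Field k] (g : ℕ) (Φ : k[X]) : Prop :=
  ∃ c : k, c ≠ 0 ∧ Φ = X ^ g - C c

/-- The product `A A^{(p)} A^{(p^2)} ⋯ A^{(p^{j-1})}`, where `A^{(p^i)}` is the matrix of the
`p^i`-th powers of the entries of `A`. -/
def frobPower {k : Type} [Field k] {ι : Type} [Fintype ι] [DecidableEq ι] (p : ℕ)
    (A : Matrix ι ι k) : ℕ → Matrix ι ι k
  | 0 => 1
  | j + 1 => frobPower p A j * A.map fun z => z ^ p ^ j

/-- The polynomial `det (1 - T A A^{(p)} ⋯ A^{(p^{s-1})})`, where `A` is the matrix `hasseWitt` of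
`Φ^{(p-1)w/(gab)}`. -/
noncomputable def frobPoly {k : Type} [Field k] (p s a b g w : ℕ) (Φ : k[X]) : k[X] :=
  (frobPower p (hasseWitt p a b w ((p - 1) * w / (g * (a * b))) Φ) s).charpolyRev

/-- For all `0 < w_i < g_i a_i b_i` with `w_0 / (g_0 a_0 b_0) = w_1 / (g_1 a_1 b_1)` and all
integers `c` prime to `p` the polynomials `D_0(T)` and `D_1(c^{ns} T)` are coprime, where `D_i` is
`frobPoly` of `Φ_i` and `w_i`, and `n = (p-1) w_0 / (g_0 a_0 b_0)`. -/
def Apart {k : Type} [Field k] (p s : ℕ) (a b g : Fin 2 → ℕ) (Φ : Fin 2 → k[X]) : Prop :=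
  ∀ w₀ w₁, 0 < w₀ → w₀ < g 0 * (a 0 * b 0) → 0 < w₁ → w₁ < g 1 * (a 1 * b 1) →
    w₀ * (g 1 * (a 1 * b 1)) = w₁ * (g 0 * (a 0 * b 0)) → ∀ c : ℕ, ¬ p ∣ c →
      IsCoprime (frobPoly p s (a 0) (b 0) (g 0) w₀ (Φ 0))
        ((frobPoly p s (a 1) (b 1) (g 1) w₁ (Φ 1)).comp
          (C ((c : k) ^ ((p - 1) * w₀ / (g 0 * (a 0 * b 0)) * s)) * X))

/-- The value `f(x, t)` at a point with coordinates in an algebraic closure of `k`. -/
noncomputable def value {k : Type} [Field k] (f : k[X][X]) (t x : AlgebraicClosure k) :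
    AlgebraicClosure k :=
  f.eval₂ (eval₂RingHom (algebraMap k (AlgebraicClosure k)) t) x

/-- The number of pairs `(t, x)` with coordinates in the field of `p^N` elements
`{z : z^{p^N} = z}` such that the trace `∑_{i < N} f(x, t)^{p^i}` is the element `c` of the prime
field. -/
noncomputable def traceCount {k : Type} [Field k] (p : ℕ) (f : k[X][X]) (N c : ℕ) : ℕ :=
  Nat.card {v : AlgebraicClosure k × AlgebraicClosure k //
    v.1 ^ p ^ N = v.1 ∧ v.2 ^ p ^ N = v.2 ∧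
      ∑ i ∈ Finset.range N, (value f v.1 v.2) ^ p ^ i = (c : AlgebraicClosure k)}

/-- The character sum `∑ ψ (Tr f(x, t))` over the pairs `(t, x)` with coordinates in the field of
`p^N` elements, where `ψ (c) = ζ^c`. -/
noncomputable def charSum {k : Type} [Field k] (p : ℕ) (f : k[X][X]) (ζ : ℂ) (N : ℕ) : ℂ :=
  ∑ c ∈ Finset.range p, (traceCount p f N c : ℂ) * ζ ^ c

/-- `L(T) = exp (-∑_{m ≥ 1} S_m T^m / m)`, where `S_m` is the character sum over the extension of
degree `m` of the field of `p^s` elements: `L(0) = 1` and `T L' = - L ∑_{m ≥ 1} S_m T^m`. -/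
def IsLFunction {k : Type} [Field k] (p s : ℕ) (f : k[X][X]) (ζ : ℂ) (L : ℂ[X]) : Prop :=
  L.coeff 0 = 1 ∧
    PowerSeries.X * PowerSeries.derivative ℂ (L : PowerSeries ℂ) =
      -((L : PowerSeries ℂ) * PowerSeries.mk fun m =>
        if m = 0 then 0 else charSum p f ζ (s * m))

/-- All roots of `L` have absolute value `1/q`. -/
def Pure (q : ℕ) (L : ℂ[X]) : Prop :=
  ∀ z : ℂ, L.IsRoot z → ‖z‖ * (q : ℝ) = 1

theorem Leads.lead {k : Type} [Field k] {a b g : ℕ} {Φ : k[X]} {f : k[X][X]}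
    (h : Leads a b g Φ f) (hΦ : Φ.natDegree = g) : Pool.Agent.N867.AS.Final2.Lead a b g Φ f := by
  refine ⟨h.wt, ?_⟩
  ext r
  rcases Nat.lt_or_ge g r with hr | hr
  · have h1 : Φ.coeff r = 0 := coeff_eq_zero_of_natDegree_lt (by rw [hΦ]; exact hr)
    rw [h1, Pool.Agent.N867.AS.TV.topPoly, finsetSum_coeff]
    refine Finset.sum_eq_zero fun i hi => ?_
    rw [coeff_C_mul, coeff_X_pow, if_neg, mul_zero]
    have := Finset.mem_range.1 hi
    omega
  · rw [Pool.Agent.N867.AS.RG.top_coeff a b g f hr, h.top r hr]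

theorem frobPower_eq {k : Type} [Field k] {ι : Type} [Fintype ι] [DecidableEq ι] (p : ℕ)
    (A : Matrix ι ι k) (j : ℕ) :
    frobPower p A j = Pool.Agent.N867.AS.OC.FP (fun i => A.map fun z => z ^ p ^ i) j := by
  induction j with
  | zero => rfl
  | succ j ih => rw [frobPower, Pool.Agent.N867.AS.OC.FP, ih]

/-- Let `k` be the field of `q = p^s` elements.  For `i = 0, 1` let `H_{i1}, …, H_{i e_i}` be
distinct monic irreducible polynomials over `k` of total degree `g_i`, such that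
`Φ_i = H_{i1} ⋯ H_{i e_i}` is ordinary or of the form `X^{g_i} - c`, and let `f_i` have leading
form `Φ_i`.  Let `Φ_0` and `Φ_1` be apart, and let the degrees of the `H_{0j}` be prime to the
degrees of the `H_{1j'}`.  Let `L_i` be the `L`-function `exp (-∑ S_m T^m / m)` of the character
sums `S_m = ∑ ψ_i (Tr f_i(x, t))`, `ψ_i(c) = ζ_i^c`, for primitive `p`-th roots of unity `ζ_i`, and
let all the roots of `L_0` have absolute value `1/q`.  Then for every common root `z` of `L_0`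
and `L_1` we have `e_i ≥ 2`, and the sum of the multiplicities of `z` and `1/q` in `L_i` is at most
`e_i - 1` if `z ≠ 1/q` (`i = 0, 1`). -/
theorem result (p : ℕ) (hp : p.Prime) (k : Type) [Field k] [Fintype k] [CharP k p] (s : ℕ)
    (hs : Fintype.card k = p ^ s) (a b g e : Fin 2 → ℕ) (hab : ∀ i, (a i).Coprime (b i))
    (hga : ∀ i, g i * a i ∣ p - 1) (hgb : ∀ i, g i * b i ∣ p - 1)
    (H : ∀ i, Fin (e i) → k[X]) (hirr : ∀ i j, Irreducible (H i j)) (hmon : ∀ i j, (H i j).Monic)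
    (hinj : ∀ i, Function.Injective (H i)) (hdeg : ∀ i, ∑ j, (H i j).natDegree = g i)
    (hord : ∀ i, Ordinary p (a i) (b i) (g i) (∏ j, H i j) ∨ Diagonal (g i) (∏ j, H i j))
    (hapart : Apart p s a b g fun i => ∏ j, H i j)
    (hd : ∀ j j', (H 0 j).natDegree.Coprime (H 1 j').natDegree)
    (f : Fin 2 → k[X][X]) (hf : ∀ i, Leads (a i) (b i) (g i) (∏ j, H i j) (f i))
    (ζ : Fin 2 → ℂ) (hζ : ∀ i, IsPrimitiveRoot (ζ i) p) (L : Fin 2 → ℂ[X])
    (hL : ∀ i, IsLFunction p s (f i) (ζ i) (L i)) (hpure : Pure (Fintype.card k) (L 0)) (z : ℂ)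
    (hz : ∀ i, (L i).IsRoot z) (i : Fin 2) :
    2 ≤ e i ∧ (z ≠ 1 / (Fintype.card k : ℂ) →
      (L i).rootMultiplicity z + (L i).rootMultiplicity (1 / (Fintype.card k : ℂ)) ≤ e i - 1) := by
  have hp1 : p - 1 ≠ 0 := by
    have := hp.two_le
    omega
  have hga0 : ∀ i, g i * a i ≠ 0 := fun i h => hp1 (by
    have := hga i
    rwa [h, zero_dvd_iff] at this)
  have hgb0 : ∀ i, g i * b i ≠ 0 := fun i h => hp1 (by
    have := hgb i
    rwa [h, zero_dvd_iff] at this)
  have hg : ∀ i, g i ≠ 0 := fun i => left_ne_zero_of_mul (hga0 i)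
  have ha : ∀ i, a i ≠ 0 := fun i => right_ne_zero_of_mul (hga0 i)
  have hb : ∀ i, b i ≠ 0 := fun i => right_ne_zero_of_mul (hgb0 i)
  have hΦ : ∀ i, (∏ j, H i j).natDegree = g i := by
    intro i
    rw [natDegree_prod_of_monic _ _ fun j _ => hmon i j, hdeg]
  have hord' : ∀ i, Pool.Agent.N867.AS.LP.OrdP p (a i) (b i) (g i) (∏ j, H i j) := by
    intro i
    rcases hord i with h | ⟨c, hc, h⟩
    · exact h
    · rw [h]
      exact Pool.Agent.N867.AS.LP.ord_diag hp (ha i) (hb i) (hab i) (hg i)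
        (Pool.Agent.N867.AS.TV.dvd_M (hab i) (hg i) (hga i) (hgb i)) hc
  have hq : 1 / (Fintype.card k : ℂ) = ((p : ℂ) ^ s)⁻¹ := by
    rw [hs, one_div]
    push_cast
    rfl
  rw [hq]
  refine Pool.Agent.N867.AS.OC.main3 hp hs a b g e hab hga hgb H hirr hmon hinj hΦ hord' hd
    (fun w₀ w₁ h0 h1 h2 h3 h4 c hc => ?_) f (fun i => (hf i).lead (hΦ i)) hζ L
    (fun i => (hL i).1) (fun i => (hL i).2) (fun z hz => ?_) hz i
  · have h := hapart w₀ w₁ h0 h1 h2 h3 h4 c hc
    unfold frobPoly at h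
    rw [frobPower_eq, frobPower_eq] at h
    exact h
  · have h := hpure z hz
    rw [hs] at h
    push_cast at h
    exact h

end Pool.Agent.Results.MP_677d84_ag.ProductsOfTwoSurfaces
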